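import Pool.Agent.Helper92.LV.Stmts
import Pool.Agent.Helper95.LK.C0

open Filter Topology NumberField Pool.Agent.Helper42.LS Pool.Agent.Helper42.LK

namespace Pool.Agent.Helper92.LV

/-- upper estimate -/
theorem c02_up {a : ℝ} (ha : 1 ≤ a) {A B X : ℂ} {R : ℝ} (hR : 0 < R)
    (hA : ‖A‖ ≤ a * R ^ 2) (hB : ‖B‖ ≤ a ^ 2 * R ^ 3) :
    max ‖th A B X‖ (R * ‖4 * cu A B X‖) ≤ (5 + 6 * a + 13 * a ^ 2) * (max ‖X‖ R) ^ 4 := by
  obtain ⟨M, hM⟩ : ∃ M, M = max ‖X‖ R := ⟨_, rfl⟩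
  rw [← hM]
  have hXM : ‖X‖ ≤ M := by rw [hM]; exact le_max_left _ _
  have hRM : R ≤ M := by rw [hM]; exact le_max_right _ _
  have hM0 : 0 < M := lt_of_lt_of_le hR hRM
  have ha0 : 0 < a := by linarith
  have hA' : ‖A‖ ≤ a * M ^ 2 :=
    hA.trans (mul_le_mul_of_nonneg_left (pow_le_pow_left₀ hR.le hRM 2) ha0.le)
  have hB' : ‖B‖ ≤ a ^ 2 * M ^ 3 :=
    hB.trans (mul_le_mul_of_nonneg_left (pow_le_pow_left₀ hR.le hRM 3) (by positivity))
  have hX2 : ‖X‖ ^ 2 ≤ M ^ 2 := pow_le_pow_left₀ (norm_nonneg _) hXM 2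
  have hX3 : ‖X‖ ^ 3 ≤ M ^ 3 := pow_le_pow_left₀ (norm_nonneg _) hXM 3
  have hX4 : ‖X‖ ^ 4 ≤ M ^ 4 := pow_le_pow_left₀ (norm_nonneg _) hXM 4
  have t1 : ‖2 * A * X ^ 2‖ ≤ 2 * a * M ^ 4 := by
    rw [norm_mul, norm_mul, norm_pow, Complex.norm_ofNat]
    have h := mul_le_mul hA' hX2 (by positivity) (by positivity)
    have e : a * M ^ 2 * M ^ 2 = a * M ^ 4 := by ring
    rw [e] at h
    nlinarith
  have t2 : ‖8 * B * X‖ ≤ 8 * a ^ 2 * M ^ 4 := by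
    rw [norm_mul, norm_mul, Complex.norm_ofNat]
    have h := mul_le_mul hB' hXM (by positivity) (by positivity)
    have e : a ^ 2 * M ^ 3 * M = a ^ 2 * M ^ 4 := by ring
    rw [e] at h
    nlinarith
  have t3 : ‖A ^ 2‖ ≤ a ^ 2 * M ^ 4 := by
    rw [norm_pow]
    have h := pow_le_pow_left₀ (norm_nonneg _) hA' 2
    have e : (a * M ^ 2) ^ 2 = a ^ 2 * M ^ 4 := by ring
    rwa [e] at h
  have t4 : ‖X ^ 4‖ ≤ M ^ 4 := by
    rw [norm_pow]
    exact hX4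
  have hMp : 0 < M ^ 4 := by positivity
  have ha2 : 0 < a ^ 2 := by positivity
  apply max_le
  · have e : th A B X = X ^ 4 - 2 * A * X ^ 2 - 8 * B * X + A ^ 2 := by
      unfold th
      ring
    rw [e]
    have h1 := norm_add_le (X ^ 4 - 2 * A * X ^ 2 - 8 * B * X) (A ^ 2)
    have h2 := norm_sub_le (X ^ 4 - 2 * A * X ^ 2) (8 * B * X)
    have h3 := norm_sub_le (X ^ 4) (2 * A * X ^ 2)
    have h4 : 0 < a * M ^ 4 := by positivity
    have h5 : 0 < a ^ 2 * M ^ 4 := by positivity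
    nlinarith
  · have s1 : ‖cu A B X‖ ≤ (1 + a + a ^ 2) * M ^ 3 := by
      have e : cu A B X = X ^ 3 + A * X + B := by
        unfold cu
        ring
      rw [e]
      have h1 := norm_add_le (X ^ 3 + A * X) B
      have h2 := norm_add_le (X ^ 3) (A * X)
      have h3 : ‖X ^ 3‖ ≤ M ^ 3 := by
        rw [norm_pow]
        exact hX3
      have h4 : ‖A * X‖ ≤ a * M ^ 3 := by
        rw [norm_mul]
        have h := mul_le_mul hA' hXM (by positivity) (by positivity)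
        have e : a * M ^ 2 * M = a * M ^ 3 := by ring
        rwa [e] at h
      nlinarith
    rw [norm_mul, Complex.norm_ofNat]
    have h1 : R * (4 * ‖cu A B X‖) ≤ M * (4 * ((1 + a + a ^ 2) * M ^ 3)) := by
      apply mul_le_mul hRM _ (by positivity) hM0.le
      linarith
    have h4 : 0 < a * M ^ 4 := by positivity
    have h5 : 0 < a ^ 2 * M ^ 4 := by positivity
    have e : M * (4 * ((1 + a + a ^ 2) * M ^ 3)) = 4 * M ^ 4 + 4 * (a * M ^ 4) + 4 * (a ^ 2 * M ^ 4) := by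
      ring
    have e2 : (5 + 6 * a + 13 * a ^ 2) * M ^ 4 = 5 * M ^ 4 + 6 * (a * M ^ 4) + 13 * (a ^ 2 * M ^ 4) := by
      ring
    rw [e] at h1
    rw [e2]
    linarith

theorem st_C02 : ST_C02 := by
  intro J₀
  obtain ⟨a, ha⟩ : ∃ a : ℝ, a = max 1 J₀ := ⟨_, rfl⟩
  have ha1 : 1 ≤ a := by rw [ha]; exact le_max_left _ _
  have haJ : J₀ ≤ a := by rw [ha]; exact le_max_right _ _
  obtain ⟨K, hK1, hK⟩ := c0_core a ha1
  have hK20 : 0 ≤ Real.log (5 + 6 * a + 13 * a ^ 2) := by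
    apply Real.log_nonneg
    nlinarith
  have hK10 : 0 ≤ Real.log K := Real.log_nonneg hK1
  refine ⟨Real.log K + Real.log (5 + 6 * a + 13 * a ^ 2) + a ^ 2, by positivity, ?_⟩
  intro A B hD hA X Y hG
  have hDpos : 0 < ‖dsc A B‖ := norm_pos_iff.mpr hD
  obtain ⟨R, hR⟩ : ∃ R : ℝ, R = ‖dsc A B‖ ^ (1 / 6 : ℝ) := ⟨_, rfl⟩
  have hRpos : 0 < R := by
    rw [hR]
    exact Real.rpow_pos_of_pos hDpos _
  have hR6 : ‖dsc A B‖ = R ^ 6 := by
    rw [hR, ← Real.rpow_natCast, ← Real.rpow_mul hDpos.le]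
    norm_num
  have hA3 : ‖A‖ ^ 3 ≤ (a * R ^ 2) ^ 3 := by
    rw [norm_mul, norm_pow, Complex.norm_ofNat, hR6] at hA
    have h1 : J₀ * R ^ 6 ≤ a * R ^ 6 := mul_le_mul_of_nonneg_right haJ (by positivity)
    have h2 : a * R ^ 6 ≤ a ^ 3 * R ^ 6 := by
      refine mul_le_mul_of_nonneg_right ?_ (by positivity)
      nlinarith [mul_nonneg (by linarith : (0:ℝ) ≤ a - 1) (by linarith : (0:ℝ) ≤ a),
        mul_nonneg (mul_nonneg (by linarith : (0:ℝ) ≤ a - 1) (by linarith : (0:ℝ) ≤ a))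
          (by linarith : (0:ℝ) ≤ a)]
    have h3 : (a * R ^ 2) ^ 3 = a ^ 3 * R ^ 6 := by ring
    rw [h3]
    have h4 : 0 ≤ ‖A‖ ^ 3 := by positivity
    nlinarith
  have hAa : ‖A‖ ≤ a * R ^ 2 := le_of_pow_le_pow_left₀ (by norm_num) (by positivity) hA3
  have hBb : ‖B‖ ≤ a ^ 2 * R ^ 3 := by
    have h1 : 27 * ‖B‖ ^ 2 ≤ R ^ 6 + 4 * ‖A‖ ^ 3 := by
      have h2 : 27 * B ^ 2 = dsc A B - 4 * A ^ 3 := by unfold dsc; ring
      have h3 : ‖27 * B ^ 2‖ = 27 * ‖B‖ ^ 2 := by rw [norm_mul, norm_pow, Complex.norm_ofNat]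
      have h4 : ‖4 * A ^ 3‖ = 4 * ‖A‖ ^ 3 := by rw [norm_mul, norm_pow, Complex.norm_ofNat]
      rw [← h3, ← h4, h2, ← hR6]
      exact norm_sub_le _ _
    have h3 : (a * R ^ 2) ^ 3 = a ^ 3 * R ^ 6 := by ring
    rw [h3] at hA3
    have h5 : a ^ 3 ≤ a ^ 4 := pow_le_pow_right₀ ha1 (by norm_num)
    have h6 : 1 ≤ a ^ 4 := one_le_pow₀ ha1
    have h7 : ‖B‖ ^ 2 ≤ (a ^ 2 * R ^ 3) ^ 2 := by
      have h8 : (a ^ 2 * R ^ 3) ^ 2 = a ^ 4 * R ^ 6 := by ring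
      rw [h8]
      have hR6' : 0 < R ^ 6 := by positivity
      nlinarith [mul_le_mul_of_nonneg_right h5 hR6'.le, mul_le_mul_of_nonneg_right h6 hR6'.le]
    exact le_of_pow_le_pow_left₀ (by norm_num) (by positivity) h7
  have hC : a ≤ a ^ 2 := by nlinarith
  refine ⟨R, hRpos, ?_, ?_, ?_, ?_⟩
  · rw [hR, Real.log_rpow hDpos]
  · refine hAa.trans (mul_le_mul_of_nonneg_right ?_ (by positivity))
    linarith
  · refine hBb.trans (mul_le_mul_of_nonneg_right ?_ (by positivity))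
    linarith
  · intro k hk
    obtain ⟨h1, h2⟩ := c0_dbl hG k hk
    have hY : 0 < ‖4 * cu A B (X k)‖ := by
      have := hG.yne k hk
      rw [← h1]
      exact norm_pos_iff.mpr (mul_ne_zero (by norm_num) (pow_ne_zero 2 this))
    have h3 := hK A B (X k) R hRpos hAa hBb hR6
    have h3' := c02_up ha1 (X := X k) hRpos hAa hBb
    have hm : max ‖th A B (X k)‖ (R * ‖4 * cu A B (X k)‖) =
        max ‖X (2 * k)‖ R * ‖4 * cu A B (X k)‖ := by
      rw [max_mul_of_nonneg _ _ hY.le, ← norm_mul, ← h2, h1]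
    rw [hm] at h3 h3'
    have hmp : 0 < max ‖X k‖ R := lt_of_lt_of_le hRpos (le_max_right _ _)
    have hmp2 : 0 < max ‖X (2 * k)‖ R := lt_of_lt_of_le hRpos (le_max_right _ _)
    have hK0 : 0 < K := lt_of_lt_of_le one_pos hK1
    have hK2 : 0 < 5 + 6 * a + 13 * a ^ 2 := by positivity
    have h4 := Real.log_le_log (by positivity) h3
    have h4' := Real.log_le_log (by positivity) h3'
    rw [Real.log_pow, Real.log_mul hK0.ne' (mul_pos hmp2 hY).ne',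
      Real.log_mul hmp2.ne' hY.ne'] at h4
    rw [Real.log_mul hK2.ne' (pow_pos hmp 4).ne', Real.log_pow,
      Real.log_mul hmp2.ne' hY.ne'] at h4'
    push_cast at h4 h4'
    have ha2 : 0 ≤ a ^ 2 := by positivity
    rw [abs_le]
    constructor
    · linarith
    · linarith

end Pool.Agent.Helper92.LV
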